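import Pool.Agent.Helper76.TX.StW

/-!
# Project TU, module TUD: the theorem for one conductor
-/

set_option autoImplicit false

open UpperHalfPlane CongruenceSubgroup
open scoped MatrixGroups

namespace Pool.Agent.Helper67.TX

open Pool.Agent.Helper76.TX Pool.Agent.Helper14.CV Pool.Agent.Helper14.TT Pool.Agent.Helper78.TW

/-- The two kinds of twisted series agree. -/
private theorem tud_tw {n d : ℕ} [NeZero d] {χ : DirichletCharacter ℂ d}
    (hval : ∀ a : ℤ, χ (a : ZMod d) = ((jacobiSym a d : ℤ) : ℂ)) (f : CuspForm (G0 (2 ^ n)) 2)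
    (L : ℂ → ℂ) : IsTw d f L ↔ IsLTw χ f L := by
  have e : ∀ m : ℕ, χ (m : ZMod d) = ((jacobiSym (m : ℤ) d : ℤ) : ℂ) := by
    intro m
    have := hval (m : ℤ)
    rwa [Int.cast_natCast] at this
  unfold IsTw IsLTw
  simp only [e]

/-- The central value and the twisted path. -/
private theorem tud_eX (hLTC : LTC) {n d : ℕ} [NeZero d] {χ : DirichletCharacter ℂ d}
    (hprim : χ.IsPrimitive) (hinv : χ⁻¹ = χ)
    (hval : ∀ a : ℤ, χ (a : ZMod d) = ((jacobiSym a d : ℤ) : ℂ)) (f : CuspForm (G0 (2 ^ n)) 2)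
    (L : ℂ → ℂ) (hL : IsTw d f L) (h0 : L (1 / 2) = 0) (G : ℤ → ℤ → ℂ) (hG : IsPot f G) :
    eX d G = 0 := by
  obtain ⟨-, h⟩ := hLTC (2 ^ n) inferInstance f d inferInstance χ L G hprim
    ((tud_tw hval f L).1 hL) hG
  rw [h0, zero_mul] at h
  rw [h]
  unfold eX
  refine Finset.sum_congr rfl fun a _ => ?_
  have e := hval (a : ℤ)
  rw [Int.cast_natCast] at e
  rw [hinv, e, zsmul_eq_mul]

private theorem tud_sg {d : ℕ} (a : ℤ) (h : Int.gcd a (d : ℤ) = 1) :
    Sg (jacobiSym a d) := jacobiSym.eq_one_or_neg_one h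

private theorem tud_gcd1 (d : ℕ) : Int.gcd (-1) (d : ℤ) = 1 := by
  rw [Int.neg_gcd]
  exact Int.one_gcd

private theorem tud_gcd2 {d : ℕ} (hd : Odd d) (n : ℕ) : Int.gcd (-(2 ^ n)) (d : ℤ) = 1 := by
  rw [Int.neg_gcd]
  have h : Nat.Coprime (2 ^ n) d := (Nat.coprime_two_left.2 hd).pow_left n
  have h2 : Int.gcd ((2 ^ n : ℕ) : ℤ) (d : ℤ) = 1 := by
    rw [Int.gcd_natCast_natCast]
    exact h
  have h3 : ((2 ^ n : ℕ) : ℤ) = 2 ^ n := by push_cast; ring
  rwa [h3] at h2

/-- A set with more than `M` elements contains `M + 1` different elements. -/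
private theorem tud_fin {X : Type} (s : Set X) (M : ℕ) (h : ¬ s.encard ≤ (M : ℕ∞)) :
    ∃ f : Fin (M + 1) → X, Function.Injective f ∧ ∀ i, f i ∈ s := by
  have h' : ((M + 1 : ℕ) : ℕ∞) ≤ s.encard := by
    have := Order.add_one_le_of_lt (not_le.1 h)
    simpa using this
  obtain ⟨t, hts, ht⟩ := Set.exists_subset_encard_eq h'
  have hfin : t.Finite := Set.finite_of_encard_eq_coe ht
  haveI : Fintype t := hfin.fintype
  have hc : Fintype.card t = M + 1 := by
    have h1 : t.encard = ((Fintype.card t : ℕ) : ℕ∞) := by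
      rw [Set.encard_eq_coe_toFinset_card, Set.toFinset_card]
    rw [ht] at h1
    exact_mod_cast h1.symm
  refine ⟨fun i => ((Fintype.equivFinOfCardEq hc).symm i : X), ?_, fun i => hts (Subtype.mem _)⟩
  exact Subtype.val_injective.comp (Equiv.injective _)

private theorem tud_act (ε : ℤ) (G : ℤ → ℤ → ℂ) (p q : ℤ) :
    (ε • act (-1) 0 0 1 G) p q = (ε : ℂ) * G (-p) q := by
  rw [Pi.smul_apply, Pi.smul_apply, zsmul_eq_mul]
  unfold act
  rw [show (-1 : ℤ) * p + 0 * q = -p by ring, show (0 : ℤ) * p + 1 * q = q by ring]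

/-- Module TUD. -/
theorem hTud : StTud := by
  intro hA4 hA6 hA6M hPtl hInd hNws hZrx hJac hLTC hLTE hCnx d n hd hsq hn
  haveI : NeZero d := ⟨hd.pos.ne'⟩
  obtain ⟨χ, hprim, hinv, hval⟩ := hJac d hd hsq
  refine ⟨fun f => ?_, ?_⟩
  · obtain ⟨L, hL⟩ := hLTE (2 ^ n) inferInstance f d inferInstance χ hprim
    exact ⟨L, (tud_tw hval f L).2 hL⟩
  by_contra hlt
  obtain ⟨f, hfi, hf⟩ := tud_fin _ _ hlt
  have hw : Sg (jacobiSym (-(2 ^ n)) d) := tud_sg _ (tud_gcd2 hd n)
  have hε : Sg (jacobiSym (-1) d) := tud_sg _ (tud_gcd1 d)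
  have hG := fun k => hA4 (2 ^ n) inferInstance (f k)
  choose G hG0 hG1 using hG
  have heX : ∀ k, eX d (G k) = 0 := by
    intro k
    obtain ⟨-, -, L, hL, h0⟩ := hf k
    exact tud_eX hLTC hprim hinv hval (f k) L hL h0 (G k) (hG0 k)
  have hfin := hCnx d n hd hsq hn _
    (fun k => G k + (jacobiSym (-1) d) • act (-1) 0 0 1 (G k))
    (fun k => hNws n (f k) (G k) _ _ (by omega) hw hε (hf k).1 (hf k).2.1 (hG0 k))
    (fun k => hZrx n d (f k) (G k) (by omega) hd (hf k).1 (hG0 k) (heX k)) ?_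
  · omega
  · rintro c ⟨κ, hκ⟩
    have hpot := hPtl (2 ^ n) inferInstance _ f G hG0 c
    have hval2 : ∀ p q : ℤ, (p ≠ 0 ∨ q ≠ 0) → (∑ k, c k • G k) p q +
        ((jacobiSym (-1) d : ℤ) : ℂ) * (∑ k, c k • G k) (-p) q = κ := by
      intro p q hpq
      have h := hκ p q hpq
      have e : ∀ k, (c k • (G k + (jacobiSym (-1) d) • act (-1) 0 0 1 (G k))) p q =
          c k * G k p q + c k * (((jacobiSym (-1) d : ℤ) : ℂ) * G k (-p) q) := by
        intro k
        rw [← tud_act, ← mul_add]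
        rfl
      have e2 : ∀ p' q' : ℤ, (∑ k, c k • G k) p' q' = ∑ k, c k * G k p' q' := by
        intro p' q'
        rw [Finset.sum_apply, Finset.sum_apply]
        rfl
      rw [e2, e2, Finset.mul_sum, ← Finset.sum_add_distrib]
      simp only [Finset.sum_apply, Pi.zero_apply, zero_add] at h
      rw [← h]
      refine Finset.sum_congr rfl fun k _ => ?_
      refine Eq.trans ?_ (e k).symm
      ring
    have hF : ∑ k, c k • f k = 0 := by
      rcases hε with h1 | h1
      · refine hA6 (2 ^ n) inferInstance _ _ κ hpot fun p q hpq => ?_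
        have h := hval2 p q hpq
        rw [h1, Int.cast_one, one_mul] at h
        exact h
      · refine hA6M (2 ^ n) inferInstance _ _ κ hpot fun p q hpq => ?_
        have h := hval2 p q hpq
        rw [h1, Int.cast_neg, Int.cast_one, neg_one_mul, ← sub_eq_add_neg] at h
        exact h
    have hli := hInd n _ f hfi fun b => (hf b).1
    funext k
    exact (Fintype.linearIndependent_iff.1 hli) c hF k

end Pool.Agent.Helper67.TX
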